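import Pool.Agent.MP_86c931_ag.H56.RowsB

/-! The Fischer inner product and the representation theory of two commuting Lie algebras. -/

set_option linter.unusedSectionVars false

namespace Pool.Agent.MP_86c931_ag.H82

open MvPolynomial Finset Pool.Agent.MP_86c931_ag.H56
open scoped ComplexConjugate

/-- orthogonal projection onto a finite dimensional subspace -/
theorem exists_orth {E : Type*} [AddCommGroup E] [Module ℂ E] (c : InnerProductSpace.Core ℂ E)
    (W : Submodule ℂ E) [FiniteDimensional ℂ W] (p : E) :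
    ∃ w ∈ W, ∀ w' ∈ W, c.inner w' (p - w) = 0 := by
  let _ : NormedAddCommGroup E := c.toNormedAddCommGroup
  let _ : InnerProductSpace ℂ E := InnerProductSpace.ofCore c.toCore
  obtain ⟨y, hy, z, hz, h⟩ := W.exists_add_mem_mem_orthogonal p
  refine ⟨y, hy, fun w' hw' => ?_⟩
  have : p - y = z := by rw [h]; abel
  rw [this]
  exact (Submodule.mem_orthogonal W z).1 hz w' hw'

section ip

variable {σ : Type*} [Fintype σ] [DecidableEq σ]

/-- The weight of a monomial: the product of the factorials of the exponents. -/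
noncomputable def fw (α : σ →₀ ℕ) : ℝ := ∏ i, ((α i).factorial : ℝ)

theorem fw_pos (α : σ →₀ ℕ) : 0 < fw α := by
  unfold fw; positivity

theorem fw_single_add (i : σ) (α : σ →₀ ℕ) :
    fw (Finsupp.single i 1 + α) = (α i + 1) * fw α := by
  unfold fw
  rw [← Finset.mul_prod_erase univ _ (mem_univ i), ← Finset.mul_prod_erase univ
    (fun j => ((α j).factorial : ℝ)) (mem_univ i), ← mul_assoc]
  congr 1
  · simp [add_comm 1 (α i), Nat.factorial_succ]
  · refine Finset.prod_congr rfl fun j hj => ?_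
    have : j ≠ i := (mem_erase.mp hj).1
    simp [this.symm]

/-- The Fischer inner product. -/
noncomputable def ip (P R : MvPolynomial σ ℂ) : ℂ :=
  ∑ α ∈ P.support, conj (coeff α P) * coeff α R * (fw α : ℂ)

theorem ip_eq_sum {P R : MvPolynomial σ ℂ} {s : Finset (σ →₀ ℕ)} (h : P.support ⊆ s) :
    ip P R = ∑ α ∈ s, conj (coeff α P) * coeff α R * (fw α : ℂ) := by
  unfold ip
  refine Finset.sum_subset h fun α _ hα => ?_
  rw [notMem_support_iff.mp hα]; simp

theorem ip_add_left (P P' R : MvPolynomial σ ℂ) : ip (P + P') R = ip P R + ip P' R := by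
  rw [ip_eq_sum (s := P.support ∪ P'.support) support_add,
    ip_eq_sum (P := P) (s := P.support ∪ P'.support) subset_union_left,
    ip_eq_sum (P := P') (s := P.support ∪ P'.support) subset_union_right, ← Finset.sum_add_distrib]
  refine Finset.sum_congr rfl fun α _ => ?_
  simp only [coeff_add, map_add]; ring

theorem ip_add_right (P R R' : MvPolynomial σ ℂ) : ip P (R + R') = ip P R + ip P R' := by
  unfold ip
  rw [← Finset.sum_add_distrib]
  refine Finset.sum_congr rfl fun α _ => ?_
  simp only [coeff_add]; ring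

theorem ip_smul_left (c : ℂ) (P R : MvPolynomial σ ℂ) : ip (c • P) R = conj c * ip P R := by
  rw [ip_eq_sum (s := P.support) support_smul]
  unfold ip
  rw [Finset.mul_sum]
  refine Finset.sum_congr rfl fun α _ => ?_
  simp only [coeff_smul, smul_eq_mul, map_mul]; ring

theorem ip_smul_right (c : ℂ) (P R : MvPolynomial σ ℂ) : ip P (c • R) = c * ip P R := by
  unfold ip
  rw [Finset.mul_sum]
  refine Finset.sum_congr rfl fun α _ => ?_
  simp only [coeff_smul, smul_eq_mul]; ring

theorem ip_zero_left (R : MvPolynomial σ ℂ) : ip 0 R = 0 := by simp [ip]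

theorem ip_zero_right (P : MvPolynomial σ ℂ) : ip P 0 = 0 := by simp [ip]

theorem ip_neg_left (P R : MvPolynomial σ ℂ) : ip (-P) R = -ip P R := by
  rw [← neg_one_smul ℂ P, ip_smul_left]; simp

theorem ip_neg_right (P R : MvPolynomial σ ℂ) : ip P (-R) = -ip P R := by
  rw [← neg_one_smul ℂ R, ip_smul_right]; simp

theorem ip_sub_left (P P' R : MvPolynomial σ ℂ) : ip (P - P') R = ip P R - ip P' R := by
  rw [sub_eq_add_neg, ip_add_left, ip_neg_left, sub_eq_add_neg]

theorem ip_sub_right (P R R' : MvPolynomial σ ℂ) : ip P (R - R') = ip P R - ip P R' := by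
  rw [sub_eq_add_neg, ip_add_right, ip_neg_right, sub_eq_add_neg]

theorem ip_sum_left {ι : Type*} (s : Finset ι) (f : ι → MvPolynomial σ ℂ)
    (R : MvPolynomial σ ℂ) : ip (∑ i ∈ s, f i) R = ∑ i ∈ s, ip (f i) R := by
  classical
  induction s using Finset.induction_on with
  | empty => simp [ip_zero_left]
  | insert a s ha ih => rw [Finset.sum_insert ha, Finset.sum_insert ha, ip_add_left, ih]

theorem ip_sum_right {ι : Type*} (s : Finset ι) (f : ι → MvPolynomial σ ℂ)
    (P : MvPolynomial σ ℂ) : ip P (∑ i ∈ s, f i) = ∑ i ∈ s, ip P (f i) := by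
  classical
  induction s using Finset.induction_on with
  | empty => simp [ip_zero_right]
  | insert a s ha ih => rw [Finset.sum_insert ha, Finset.sum_insert ha, ip_add_right, ih]

theorem ip_X_mul (i : σ) (P R : MvPolynomial σ ℂ) : ip (X i * P) R = ip P (pderiv i R) := by
  unfold ip
  rw [support_X_mul, Finset.sum_map]
  refine Finset.sum_congr rfl fun α _ => ?_
  simp only [addLeftEmbedding_apply, coeff_X_mul, coeff_pderiv, fw_single_add]
  rw [add_comm α]
  push_cast
  ring

theorem ip_conj (P R : MvPolynomial σ ℂ) : conj (ip R P) = ip P R := by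
  rw [ip_eq_sum (P := R) (s := P.support ∪ R.support) subset_union_right,
    ip_eq_sum (P := P) (s := P.support ∪ R.support) subset_union_left, map_sum]
  refine Finset.sum_congr rfl fun α _ => ?_
  simp only [map_mul, Complex.conj_conj, Complex.conj_ofReal]; ring

theorem ip_self (P : MvPolynomial σ ℂ) :
    ip P P = ((∑ α ∈ P.support, Complex.normSq (coeff α P) * fw α : ℝ) : ℂ) := by
  unfold ip
  push_cast
  refine Finset.sum_congr rfl fun α _ => ?_
  rw [Complex.normSq_eq_conj_mul_self]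

theorem ip_self_re_nonneg (P : MvPolynomial σ ℂ) : 0 ≤ (ip P P).re := by
  rw [ip_self, Complex.ofReal_re]
  exact Finset.sum_nonneg fun α _ => mul_nonneg (Complex.normSq_nonneg _) (fw_pos α).le

theorem ip_self_eq_zero {P : MvPolynomial σ ℂ} (h : (ip P P).re ≤ 0) : P = 0 := by
  rw [ip_self, Complex.ofReal_re] at h
  have h0 : ∀ α ∈ P.support, 0 ≤ Complex.normSq (coeff α P) * fw α :=
    fun α _ => mul_nonneg (Complex.normSq_nonneg _) (fw_pos α).le
  have h1 := (Finset.sum_eq_zero_iff_of_nonneg h0).1 (le_antisymm h (Finset.sum_nonneg h0))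
  ext α
  by_contra hα
  have hα' : coeff α P ≠ 0 := by simpa using hα
  have := h1 α (mem_support_iff.2 hα')
  rcases mul_eq_zero.1 this with h2 | h2
  · exact hα' (Complex.normSq_eq_zero.1 h2)
  · exact (fw_pos α).ne' h2

theorem ip_def {P : MvPolynomial σ ℂ} (h : ip P P = 0) : P = 0 :=
  ip_self_eq_zero (by rw [h]; simp)

/-- the Fischer form as an inner product -/
@[instance_reducible]
noncomputable def core : InnerProductSpace.Core ℂ (MvPolynomial σ ℂ) where
  inner := ip
  conj_inner_symm x y := ip_conj x y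
  re_inner_nonneg x := ip_self_re_nonneg x
  add_left := ip_add_left
  smul_left x y r := ip_smul_left r x y
  definite _ h := ip_def h

theorem exists_ip_orth (W : Submodule ℂ (MvPolynomial σ ℂ)) (d : ℕ)
    (hW : W ≤ restrictTotalDegree σ ℂ d) (p : MvPolynomial σ ℂ) :
    ∃ w ∈ W, ∀ w' ∈ W, ip w' (p - w) = 0 := by
  have : FiniteDimensional ℂ W := Submodule.finiteDimensional_of_le hW
  exact exists_orth core W p

theorem ip_E (s t : σ) (f g : MvPolynomial σ ℂ) :
    ip (X s * pderiv t f) g = ip f (X t * pderiv s g) := by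
  rw [ip_X_mul, ← ip_conj, ← ip_X_mul, ip_conj]

theorem E_mem (s t : σ) {d : ℕ} {f : MvPolynomial σ ℂ} (hf : f ∈ restrictTotalDegree σ ℂ d) :
    X s * pderiv t f ∈ restrictTotalDegree σ ℂ d := by
  rw [mem_restrictTotalDegree] at hf ⊢
  refine Finset.sup_le fun m hm => ?_
  rw [support_X_mul, Finset.mem_map] at hm
  obtain ⟨m', hm', rfl⟩ := hm
  rw [mem_support_iff, coeff_pderiv] at hm'
  have h1 : coeff (m' + Finsupp.single t 1) f ≠ 0 := left_ne_zero_of_mul hm'
  have h2 := (le_totalDegree (mem_support_iff.2 h1)).trans hf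
  rw [Finsupp.sum_add_index' (fun _ => rfl) (fun _ _ _ => rfl), Finsupp.sum_single_index rfl] at h2
  rw [addLeftEmbedding_apply, Finsupp.sum_add_index' (fun _ => rfl) (fun _ _ _ => rfl),
    Finsupp.sum_single_index rfl]
  omega

theorem der_eq_sum (D : Derivation ℂ (MvPolynomial σ ℂ) (MvPolynomial σ ℂ))
    (f : MvPolynomial σ ℂ) : D f = ∑ t, D (X t) * pderiv t f := by
  induction f using MvPolynomial.induction_on with
  | C a => simp
  | add p q hp hq => simp only [map_add, mul_add, Finset.sum_add_distrib, ← hp, ← hq]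
  | mul_X p i hp =>
    have h1 : ∑ t, D (X t) * (p * pderiv t (X i : MvPolynomial σ ℂ)) = p * D (X i) := by
      rw [Finset.sum_eq_single i]
      · simp [mul_comm]
      · intro t _ ht
        simp [pderiv_X_of_ne (Ne.symm ht)]
      · simp
    simp only [Derivation.leibniz, smul_eq_mul, mul_add, Finset.sum_add_distrib, h1]
    rw [hp, Finset.mul_sum]
    congr 1
    exact Finset.sum_congr rfl fun t _ => by ring

end ip

/-- lowering operator -/
noncomputable def DfP : Derivation ℂ P P :=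
  mkDerivation ℂ fun s : S18 => (![X (1, s.2), -X (2, s.2), 0] : Fin 3 → P) s.1

/-- the generators of the general linear algebra in the second factor -/
noncomputable def GD (a b : K6) : Derivation ℂ P P :=
  mkDerivation ℂ fun s : S18 => if s.2 = b then X (s.1, a) else 0

theorem De_apply (f : P) : DeP f =
    ∑ k : K6, X (0, k) * pderiv (1, k) f - ∑ k : K6, X (1, k) * pderiv (2, k) f := by
  rw [der_eq_sum, Fintype.sum_prod_type, Fin.sum_univ_three]
  simp [DeP, mkDerivation_X, sub_eq_add_neg]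

theorem Df_apply (f : P) : DfP f =
    ∑ k : K6, X (1, k) * pderiv (0, k) f - ∑ k : K6, X (2, k) * pderiv (1, k) f := by
  rw [der_eq_sum, Fintype.sum_prod_type, Fin.sum_univ_three]
  simp [DfP, mkDerivation_X, sub_eq_add_neg]

theorem GD_apply (a b : K6) (f : P) : GD a b f = ∑ α : Fin 3, X (α, a) * pderiv (α, b) f := by
  rw [der_eq_sum, Fintype.sum_prod_type]
  refine Finset.sum_congr rfl fun α _ => ?_
  simp [GD, mkDerivation_X]

theorem ip_De (f g : P) : ip (DeP f) g = ip f (DfP g) := by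
  rw [De_apply, Df_apply]
  simp only [ip_sub_left, ip_sub_right, ip_sum_left, ip_sum_right, ip_E]

theorem ip_GD (a b : K6) (f g : P) : ip (GD a b f) g = ip f (GD b a g) := by
  rw [GD_apply, GD_apply]
  simp only [ip_sum_left, ip_sum_right, ip_E]

theorem De_mem {d : ℕ} {f : P} (hf : f ∈ restrictTotalDegree S18 ℂ d) :
    DeP f ∈ restrictTotalDegree S18 ℂ d := by
  rw [De_apply]
  exact sub_mem (Submodule.sum_mem _ fun k _ => E_mem _ _ hf)
    (Submodule.sum_mem _ fun k _ => E_mem _ _ hf)

theorem Df_mem {d : ℕ} {f : P} (hf : f ∈ restrictTotalDegree S18 ℂ d) :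
    DfP f ∈ restrictTotalDegree S18 ℂ d := by
  rw [Df_apply]
  exact sub_mem (Submodule.sum_mem _ fun k _ => E_mem _ _ hf)
    (Submodule.sum_mem _ fun k _ => E_mem _ _ hf)

theorem GD_mem (a b : K6) {d : ℕ} {f : P} (hf : f ∈ restrictTotalDegree S18 ℂ d) :
    GD a b f ∈ restrictTotalDegree S18 ℂ d := by
  rw [GD_apply]
  exact Submodule.sum_mem _ fun k _ => E_mem _ _ hf

theorem comm_of_X {D E F : Derivation ℂ P P} (h : ∀ s, D (E (X s)) - E (D (X s)) = F (X s))
    (f : P) : D (E f) - E (D f) = F f := by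
  have : ⁅D, E⁆ = F := derivation_ext fun s => by rw [Derivation.commutator_apply]; exact h s
  rw [← this, Derivation.commutator_apply]

theorem comm_ef (f : P) : DeP (DfP f) - DfP (DeP f) = DhP f := by
  refine comm_of_X (fun s => ?_) f
  obtain ⟨α, k⟩ := s
  fin_cases α <;> simp [DeP, DfP, DhP, mkDerivation_X]

theorem comm_he (f : P) : DhP (DeP f) - DeP (DhP f) = DeP f := by
  refine comm_of_X (fun s => ?_) f
  obtain ⟨α, k⟩ := s
  fin_cases α <;> simp [DeP, DhP, mkDerivation_X]

theorem comm_hf (f : P) : DhP (DfP f) - DfP (DhP f) = -DfP f := by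
  have := comm_of_X (D := DhP) (E := DfP) (F := -DfP) (fun s => ?_) f
  · simpa using this
  obtain ⟨α, k⟩ := s
  fin_cases α <;> simp [DfP, DhP, mkDerivation_X]

theorem comm_eG (a b : K6) (f : P) : DeP (GD a b f) = GD a b (DeP f) := by
  have := comm_of_X (D := DeP) (E := GD a b) (F := 0) (fun s => ?_) f
  · simpa [sub_eq_zero] using this
  obtain ⟨α, k⟩ := s
  by_cases hk : k = b <;> fin_cases α <;> simp [DeP, GD, mkDerivation_X, hk]

theorem comm_hG (a b : K6) (f : P) : DhP (GD a b f) = GD a b (DhP f) := by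
  have := comm_of_X (D := DhP) (E := GD a b) (F := 0) (fun s => ?_) f
  · simpa [sub_eq_zero] using this
  obtain ⟨α, k⟩ := s
  by_cases hk : k = b <;> fin_cases α <;> simp [DhP, GD, mkDerivation_X, hk]

theorem pderiv_AP (β : Fin 3) (m k l : K6) : pderiv (β, m) (AP k l) =
    (if m = k then X (β.rev, l) else 0) + (if m = l then X (β.rev, k) else 0) := by
  by_cases hk : m = k <;> by_cases hl : m = l <;> fin_cases β <;>
    simp [AP, H56.dot, zP, pderiv_X, Pi.single_apply, hk, hl, Ne.symm, eq_comm] <;>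
    simp_all [eq_comm]

theorem br_apply (k l : K6) (g : P) :
    brP (AP k l) g = k.sgn • GD l k.dual g + l.sgn • GD k l.dual g := by
  rw [GD_apply, GD_apply, brP, brk, Fintype.sum_prod_type, Finset.smul_sum, Finset.smul_sum,
    ← Finset.sum_add_distrib, ← Equiv.sum_comp Fin.revPerm]
  refine Finset.sum_congr rfl fun α _ => ?_
  simp only [pderiv_AP, add_mul, smul_add, Finset.sum_add_distrib, ite_mul, zero_mul, smul_ite,
    smul_zero, Finset.sum_ite_eq', Finset.mem_univ, if_true, S18.dual, S18.sgn,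
    Fin.revPerm_apply, Fin.rev_rev]

theorem dual_dual (k : K6) : k.dual.dual = k := by simp [K6.dual]

theorem sgn_dual (k : K6) : k.dual.sgn = -k.sgn := by
  obtain ⟨a, b⟩ := k
  cases b <;> simp [K6.dual, K6.sgn]

theorem sgn_sq (k : K6) : k.sgn * k.sgn = 1 := by
  obtain ⟨a, b⟩ := k
  cases b <;> simp [K6.sgn]

theorem conj_sgn (k : K6) : conj k.sgn = k.sgn := by
  obtain ⟨a, b⟩ := k
  cases b <;> simp [K6.sgn]

theorem ip_br (k l : K6) (f g : P) :
    ip f (brP (AP k l) g) = -(k.sgn * l.sgn) * ip (brP (AP k.dual l.dual) f) g := by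
  rw [br_apply, br_apply, dual_dual, dual_dual, sgn_dual, sgn_dual]
  simp only [ip_add_left, ip_add_right, ip_smul_left, ip_smul_right, ip_GD, map_neg, conj_sgn]
  have hk := sgn_sq k
  have hl := sgn_sq l
  linear_combination (-(l.sgn * ip f (GD k l.dual g))) * hk - (k.sgn * ip f (GD l k.dual g)) * hl

theorem GD_Pb (a b : K6) {f : P} (hf : f ∈ Pb) : GD a b f ∈ Pb := by
  obtain ⟨h1, h2⟩ := mem_ker2.1 hf
  refine mem_ker2.2 ⟨?_, ?_⟩
  · rw [comm_eG, h1, map_zero]
  · rw [comm_hG, h2, map_zero]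

theorem br_Pb (k l : K6) {f : P} (hf : f ∈ Pb) : brP (AP k l) f ∈ Pb := by
  rw [br_apply]
  exact add_mem (Pb.smul_mem (GD_Pb _ _ hf) _) (Pb.smul_mem (GD_Pb _ _ hf) _)

theorem br_mem (k l : K6) {d : ℕ} {f : P} (hf : f ∈ restrictTotalDegree S18 ℂ d) :
    brP (AP k l) f ∈ restrictTotalDegree S18 ℂ d := by
  rw [br_apply]
  exact add_mem (Submodule.smul_mem _ _ (GD_mem _ _ hf)) (Submodule.smul_mem _ _ (GD_mem _ _ hf))

theorem br_const (k l : K6) (f : P) : constantCoeff (brP (AP k l) f) = 0 := by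
  rw [br_apply, GD_apply, GD_apply]
  simp [map_sum]

/-- the bracket with a quadratic invariant as a linear map -/
noncomputable def brL (k l : K6) : P →ₗ[ℂ] P :=
  k.sgn • (GD l k.dual).toLinearMap + l.sgn • (GD k l.dual).toLinearMap

theorem brL_apply (k l : K6) (f : P) : brL k l f = brP (AP k l) f := by
  rw [br_apply]; rfl

/-- decomposition of a weight vector -/
theorem weight_split (c : ℂ) (p : P) (hp : DhP p = (c + 1) • p) :
    ∃ u, DhP u = c • u ∧ DhP (p - DeP u) = (c + 1) • (p - DeP u) ∧ DfP (p - DeP u) = 0 := by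
  set U : Submodule ℂ P := restrictTotalDegree S18 ℂ p.totalDegree ⊓
    LinearMap.ker (DhP.toLinearMap - c • LinearMap.id) with hU
  have hmem : ∀ u, u ∈ U ↔ u ∈ restrictTotalDegree S18 ℂ p.totalDegree ∧ DhP u = c • u := by
    intro u
    simp [hU, sub_eq_zero]
  have hW : U.map DeP.toLinearMap ≤ restrictTotalDegree S18 ℂ p.totalDegree := by
    rintro _ ⟨u, hu, rfl⟩
    exact De_mem ((hmem u).1 hu).1
  obtain ⟨w, ⟨u, hu, rfl⟩, hw⟩ := exists_ip_orth _ _ hW p
  obtain ⟨hu1, hu2⟩ := (hmem u).1 hu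
  have hv : DhP (p - DeP u) = (c + 1) • (p - DeP u) := by
    have := comm_he u
    rw [hu2, Derivation.map_smul] at this
    rw [map_sub, hp, smul_sub, add_smul c 1 (DeP u), one_smul]
    linear_combination -this
  refine ⟨u, hu2, hv, ?_⟩
  have hv1 : p - DeP u ∈ restrictTotalDegree S18 ℂ p.totalDegree :=
    sub_mem ((mem_restrictTotalDegree _ _ _).2 le_rfl) (De_mem hu1)
  have hf : DfP (p - DeP u) ∈ U := by
    refine (hmem _).2 ⟨Df_mem hv1, ?_⟩
    have := comm_hf (p - DeP u)
    rw [hv, Derivation.map_smul, add_smul, one_smul] at this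
    linear_combination this
  have := hw _ ⟨_, hf, rfl⟩
  change ip (DeP (DfP (p - DeP u))) (p - DeP u) = 0 at this
  rw [ip_De] at this
  exact ip_def this

theorem ip_Df (f g : P) : ip f (DeP g) = ip (DfP f) g := by
  rw [← ip_conj, ip_De, ip_conj]

theorem fis1 (p : P) (hp : DhP p = p) : ∃ g, DhP g = 0 ∧ DeP g = p := by
  obtain ⟨u, h1, h2, h3⟩ := weight_split 0 p (by simpa using hp)
  refine ⟨u, by simpa using h1, ?_⟩
  set v := p - DeP u with hv
  have h4 := comm_ef v
  rw [h3, map_zero, h2, zero_add, one_smul, zero_sub] at h4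
  have h5 : ip v v = -ip (DeP v) (DeP v) := by
    rw [ip_De, ← ip_neg_right, h4]
  have h6 : v = 0 := ip_self_eq_zero (by
    rw [h5, Complex.neg_re]
    exact neg_nonpos.2 (ip_self_re_nonneg _))
  rw [hv, sub_eq_zero] at h6
  exact h6.symm

theorem fis2 (p : P) (hp : DhP p = 0) : ∃ i u, i ∈ Pb ∧ DhP u = -u ∧ p = i + DeP u := by
  obtain ⟨u, h1, h2, h3⟩ := weight_split (-1) p (by simpa using hp)
  set v := p - DeP u with hv
  have h2' : DhP v = 0 := by simpa using h2
  refine ⟨v, u, mem_ker2.2 ⟨?_, h2'⟩, by simpa using h1, by rw [hv]; abel⟩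
  have h4 := comm_ef v
  rw [h3, map_zero, h2', zero_sub, neg_eq_zero] at h4
  refine ip_def ?_
  rw [ip_De, h4, ip_zero_right]

theorem fis3 (u : P) (hu : DhP u = -u) (h : DeP (DeP u) = 0) : DeP u = 0 := by
  have h1 : DhP (DeP u) = 0 := by
    have := comm_he u
    rw [hu, map_neg] at this
    linear_combination this
  have h2 := comm_ef (DeP u)
  rw [h, map_zero, h1, sub_zero] at h2
  have h3 : DfP (DeP u) = 0 := ip_def (by rw [← ip_De, h2, ip_zero_left])
  exact ip_def (by rw [ip_De, h3, ip_zero_right])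

theorem fis4 (K : Submodule ℂ P)
    (hK : ∀ v ∈ Pb, (∀ k l, brP (AP k l) v = 0) → v - C (constantCoeff v) ∈ K) (p : P)
    (hp : p ∈ Pb) : ∃ g : K6 → K6 → P, (∀ k l, g k l ∈ Pb) ∧
      p - C (constantCoeff p) - ∑ k, ∑ l, brP (AP k l) (g k l) ∈ K := by
  set U : Submodule ℂ P := restrictTotalDegree S18 ℂ p.totalDegree ⊓
    Subalgebra.toSubmodule Pb with hU
  let W : Submodule ℂ P :=
    { carrier := {w | ∃ g : K6 → K6 → P, (∀ k l, g k l ∈ U) ∧
        w = ∑ k, ∑ l, brL k l (g k l)}
      add_mem' := by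
        rintro _ _ ⟨g, hg, rfl⟩ ⟨g', hg', rfl⟩
        exact ⟨fun k l => g k l + g' k l, fun k l => add_mem (hg k l) (hg' k l), by
          simp [Finset.sum_add_distrib]⟩
      zero_mem' := ⟨fun _ _ => 0, fun _ _ => zero_mem _, by simp⟩
      smul_mem' := by
        rintro c _ ⟨g, hg, rfl⟩
        exact ⟨fun k l => c • g k l, fun k l => U.smul_mem c (hg k l), by
          simp [Finset.smul_sum]⟩ }
  have hbr : ∀ k l, ∀ f ∈ U, brL k l f ∈ U := fun k l f hf => by
    rw [brL_apply]
    exact ⟨br_mem k l hf.1, br_Pb k l hf.2⟩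
  have hWU : W ≤ U := by
    rintro _ ⟨g, hg, rfl⟩
    exact Submodule.sum_mem _ fun k _ => Submodule.sum_mem _ fun l _ => hbr k l _ (hg k l)
  obtain ⟨w, hwW, hw⟩ := exists_ip_orth W p.totalDegree (hWU.trans inf_le_left) p
  have hpU : p ∈ U := ⟨(mem_restrictTotalDegree _ _ _).2 le_rfl, hp⟩
  have hv : p - w ∈ U := sub_mem hpU (hWU hwW)
  have hone : ∀ k l, ∀ f ∈ U, brL k l f ∈ W := fun k l f hf => by
    refine ⟨fun k' l' => if k' = k ∧ l' = l then f else 0, fun k' l' => ?_, ?_⟩
    · beta_reduce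
      split_ifs
      · exact hf
      · exact zero_mem _
    · rw [Finset.sum_eq_single k, Finset.sum_eq_single l]
      · simp
      · intro l' _ hl'
        simp [hl']
      · simp
      · intro k' _ hk'
        simp [hk']
      · simp
  have hkill : ∀ k l, brP (AP k l) (p - w) = 0 := fun k l => by
    refine ip_def ?_
    have h1 := hw _ (hone k.dual l.dual _ (hbr k l _ hv))
    rw [brL_apply, brL_apply] at h1
    rw [ip_br, h1, mul_zero]
  obtain ⟨g, hg, rfl⟩ := hwW
  refine ⟨g, fun k l => (hg k l).2, ?_⟩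
  have h2 := hK _ hv.2 hkill
  simp only [brL_apply] at h2
  have h3 : constantCoeff (p - ∑ k, ∑ l, brP (AP k l) (g k l)) = constantCoeff p := by
    simp [map_sum, br_const]
  rw [h3] at h2
  convert h2 using 1
  abel

theorem rowFIS : RowFIS := ⟨fis1, fis2, fis3, fis4⟩

end Pool.Agent.MP_86c931_ag.H82
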